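import Pool.Agent.H38Z.Nil.Sanity

set_option autoImplicit false

namespace Pool.Agent.Results.MP_913761_an.Ergodic

open MeasureTheory Pool.Agent.H38Z.Nil

/-- Sanity check 1: on a `(k+1)`-step compact nilspace the translations of height `k+1` act
simply transitively on each fibre of `X → X_k`, so they form the top structure group. -/
theorem structure_group (k : ℕ) (X : Type) [TopologicalSpace X] [CompactSpace X] [T2Space X]
    (C : Cubes X) (hnil : IsNilspace C) (hstep : IsStep C (k + 1))
    (hclosed : ∀ n, IsClosed (C n)) (x y : X) :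
    Quot.mk (Sim C k) x = Quot.mk (Sim C k) y ↔
      ∃! τ : X ≃ₜ X, IsTranslation C (k + 1) τ ∧ τ x = y :=
  simply_transitive k X C hnil hstep hclosed x y

/-- Sanity check 2: a nonempty `k`-step compact nilspace has exactly one Haar measure. -/
theorem haar_existsUnique (k : ℕ) (X : Type) [TopologicalSpace X] [CompactSpace X] [T2Space X]
    [SecondCountableTopology X] [Nonempty X] (C : Cubes X) (hnil : IsNilspace C)
    (hstep : IsStep C k) (hclosed : ∀ n, IsClosed (C n)) :
    ∃! μ : @Measure X (borel X), IsHaar k X C μ :=
  existsUnique_haar k X C hnil hstep hclosed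

/-- Topological transitivity implies ergodicity for compact nilspace systems. The acting group
is arbitrary (in particular it may be countable and nilpotent). -/
theorem result (k : ℕ) (X : Type) [TopologicalSpace X] [CompactSpace X] [T2Space X]
    [SecondCountableTopology X] (C : Cubes X) (hnil : IsNilspace C) (hstep : IsStep C k)
    (hclosed : ∀ n, IsClosed (C n)) (μ : @Measure X (borel X)) (hμ : IsHaar k X C μ)
    (G : Type) [Group G] (φ : G →* (X ≃ₜ X)) (hφ : ∀ g, IsTranslation C 1 (φ g))
    (htrans : ∀ U V : Set X, IsOpen U → IsOpen V → U.Nonempty → V.Nonempty →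
      ∃ g, ((φ g) '' U ∩ V).Nonempty)
    (s : Set X) (hs : @MeasurableSet X (borel X) s) (hinv : ∀ g, (φ g) ⁻¹' s = s) :
    μ s = 0 ∨ μ s = 1 :=
  ergodic_of_transitive k X C hnil hstep hclosed μ hμ (fun g => φ g) hφ htrans s hs hinv

end Pool.Agent.Results.MP_913761_an.Ergodic
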